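import Pool.Agent.H25.BC.F4

/-!
# Integrality in the `b`-conjecture for constellations

`K = ℚ(b)`, `alK = 1 + b`. `J` is the family of Jack symmetric functions with parameter `1 + b` in
the integral normalisation (`H25BC.IsJack`: homogeneous, orthogonal, triangular for the dominance
order, coefficient of `x_1 ⋯ x_n` equal to `n!`), written in the power sums.
`H25BC.hco J (k+2) M` is the coefficient `h` of the problem for the profile `M 0 = λ`,
`M 1 = μ^0, .., M (k+1) = μ^k`.

Theorem: for all `k ≥ 1` and all profiles, `h ∈ ℤ[b]`, and even `(i m_i(ρ)/n) h ∈ ℤ[b]` for every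
partition `ρ` of the profile and every `i`, `m_i(ρ)` the number of parts of `ρ` equal to `i`.
-/

namespace Pool.Agent.Results.MP_07bfac_co.HIntegrality

open H25BC

theorem result
    (J : ∀ n : ℕ, n.Partition → MvPolynomial ℕ (RatFunc ℚ)) (hJ : IsJack alK J)
    (k n : ℕ) (hk : 1 ≤ k) (hn : 1 ≤ n) (M : Fin (k + 2) → n.Partition) :
    (∃ P : Polynomial ℤ, hco J (k + 2) M = toK P) ∧
      ∀ (a : Fin (k + 2)) (i : ℕ), ∃ P : Polynomial ℤ,
        ((i : RatFunc ℚ) * ((M a).parts.count i : RatFunc ℚ) / (n : RatFunc ℚ)) *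
          hco J (k + 2) M = toK P := by
  obtain ⟨m, rfl⟩ : ∃ m, k = m + 1 := ⟨k - 1, by omega⟩
  refine ⟨?_, fun a i => ?_⟩
  · obtain ⟨P, hP⟩ := h_int hJ m n M
    exact ⟨P, hP.symm⟩
  · rcases i with _ | j
    · refine ⟨0, ?_⟩
      simp
    · obtain ⟨P, hP⟩ := h_int_strong hJ m n hn M a j
      refine ⟨P, ?_⟩
      rw [hP]
      push_cast
      rfl

end Pool.Agent.Results.MP_07bfac_co.HIntegrality
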