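import Pool.Agent.H25.BC.F4

/-!
# The positivity claim for constellations reduces to `k = 1`

Notation as in `HIntegrality`. `H25BC.cco J (k+2) M a` is the coefficient `c` of the problem for the
profile `M`, where the partition `M a` plays the role of `λ` (`a = 0` in the problem).
`H25BC.posZ` is the set of integer polynomials with non-negative coefficients.

Theorem, for every `N`: if the coefficients `h` for `k = 1` (the `b`-conjecture of Goulden and
Jackson) have non-negative coefficients for all profiles of size `≤ N`, then for all `k ≥ 1` and all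
profiles of size `≤ N` both `h` and `c` are polynomials in `b` with non-negative integer
coefficients.
-/

namespace Pool.Agent.Results.MP_07bfac_co.KOneSuffices

open H25BC

theorem result
    (J : ∀ n : ℕ, n.Partition → MvPolynomial ℕ (RatFunc ℚ)) (hJ : IsJack alK J) (N : ℕ) :
    (∀ n, 1 ≤ n → n ≤ N → ∀ M : Fin 3 → n.Partition, ∃ P ∈ posZ, hco J 3 M = toK P) ↔
      ∀ k n, 1 ≤ k → 1 ≤ n → n ≤ N → ∀ M : Fin (k + 2) → n.Partition,
        (∃ P ∈ posZ, hco J (k + 2) M = toK P) ∧
          ∀ a, ∃ P ∈ posZ, cco J (k + 2) M a = toK P := by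
  constructor
  · intro h k n hk hn hnN M
    obtain ⟨m, rfl⟩ : ∃ m, k = m + 1 := ⟨k - 1, by omega⟩
    have h3 : ∀ n ≤ N, ∀ M : Fin 3 → n.Partition, hco J 3 M ∈ Subsemiring.map toK posZ := by
      intro n' hn' M'
      rcases Nat.eq_zero_or_pos n' with h0 | h0
      · subst h0
        have h1 : hco J 3 M' = 0 := by
          unfold hco
          rw [Psi_eq hJ 0 0]
          simp
        rw [h1]
        exact zero_mem _
      · obtain ⟨P, hP, hP'⟩ := h n' h0 hn' M'
        exact ⟨P, hP, hP'.symm⟩
    obtain ⟨h1, h2⟩ := pos hJ N h3 m n hnN M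
    obtain ⟨P, hP, hP'⟩ := h1
    refine ⟨⟨P, hP, hP'.symm⟩, fun a => ?_⟩
    obtain ⟨Q, hQ, hQ'⟩ := h2 a
    exact ⟨Q, hQ, hQ'.symm⟩
  · intro h n hn hnN M
    exact (h 1 n le_rfl hn hnN M).1

end Pool.Agent.Results.MP_07bfac_co.KOneSuffices
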